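import Pool.Agent.Chi73.Main

/-!
Distance-t colourings of graphs without cycles of length 4, 6 and 10.

For every t at least 16 and every set A of cycle lengths contained in {4, 6, 10}, the largest
distance-t chromatic number of a graph of maximum degree at most d with no cycle whose length lies
in A is of order d ^ t. In particular chi_t(d, 10) = Theta(d ^ t) for every t at least 16.
-/

set_option autoImplicit false

namespace Pool.Agent.Results.MP_73c159_co.NoTenCycle

/-- every vertex of `G` has at most `d` neighbours -/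
def MaxDegreeLe {n : ℕ} (G : SimpleGraph (Fin n)) (d : ℕ) : Prop :=
  ∀ v, (G.neighborSet v).ncard ≤ d

/-- `G` contains no cycle whose length lies in `A` -/
def CycleFree {n : ℕ} (G : SimpleGraph (Fin n)) (A : Set ℕ) : Prop :=
  ∀ ℓ ∈ A, ¬ ∃ u : Fin n, ∃ p : G.Walk u u, p.IsCycle ∧ p.length = ℓ

/-- `G` has a colouring with `k` colours in which distinct vertices at distance at most `t`
receive different colours -/
def DistColorable {n : ℕ} (G : SimpleGraph (Fin n)) (t k : ℕ) : Prop :=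
  (SimpleGraph.fromRel (fun u v : Fin n => G.edist u v ≤ (t : ℕ∞))).Colorable k

/-- `chi_t(d, A) = O(f(d))` as `d` tends to infinity -/
def ChiUpper (t : ℕ) (A : Set ℕ) (f : ℕ → ℝ) : Prop :=
  ∃ C : ℝ, ∃ d0 : ℕ, ∀ d : ℕ, d0 ≤ d → ∀ n : ℕ, ∀ G : SimpleGraph (Fin n),
    MaxDegreeLe G d → CycleFree G A → ∃ k : ℕ, (k : ℝ) ≤ C * f d ∧ DistColorable G t k

/-- `chi_t(d, A) = Omega(f(d))` as `d` tends to infinity -/
def ChiLower (t : ℕ) (A : Set ℕ) (f : ℕ → ℝ) : Prop :=
  ∃ c : ℝ, 0 < c ∧ ∃ d0 : ℕ, ∀ d : ℕ, d0 ≤ d → ∃ n : ℕ, ∃ G : SimpleGraph (Fin n),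
    MaxDegreeLe G d ∧ CycleFree G A ∧ ∀ k : ℕ, (k : ℝ) < c * f d → ¬ DistColorable G t k

/-- `chi_t(d, A) = Theta(f(d))` as `d` tends to infinity -/
def ChiTheta (t : ℕ) (A : Set ℕ) (f : ℕ → ℝ) : Prop := ChiUpper t A f ∧ ChiLower t A f

/-- For every `t ≥ 16` and every `A ⊆ {4, 6, 10}`, the largest distance-`t` chromatic number of a
graph of maximum degree at most `d` without cycles of length in `A` is `Theta(d ^ t)`. -/
theorem result (t : ℕ) (ht : 16 ≤ t) (A : Set ℕ) (hA : A ⊆ {4, 6, 10}) :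
    ChiTheta t A (fun d => (d : ℝ) ^ t) := by
  refine ⟨?_, ?_⟩
  · refine ⟨2 * 2 ^ t, 1, ?_⟩
    intro d hd n G hdeg _
    exact Pool.Agent.Chi73.upper t n d hd G hdeg
  · obtain ⟨c, hc, d0, h⟩ := Pool.Agent.Chi73.lower t ht
    refine ⟨c, hc, d0, ?_⟩
    intro d hd
    obtain ⟨n, G, h1, h2, h3⟩ := h d hd
    refine ⟨n, G, h1, ?_, h3⟩
    intro ℓ hℓ
    apply h2
    have := hA hℓ
    simpa using this

end Pool.Agent.Results.MP_73c159_co.NoTenCycle
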